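import Mathlib
import Pool.Agent.Helper66.SB.Goals

/-!
# Packet SB-WR (MP_d3128a_ag)
-/

set_option autoImplicit false

open Module MvPolynomial

noncomputable section

namespace Pool.Agent.Helper72.SB

open Pool.Agent.Helper66.SB Helper18.Shgh

theorem dn_zero (F f : R2) : dn F 0 f = f := by
  unfold dn
  rw [pow_zero]
  rfl

theorem dn_succ (F f : R2) (j : ℕ) : dn F (j + 1) f = dn F j (dl F f) := by
  unfold dn
  rw [pow_succ]
  rfl

theorem OC_succ (F : R2) (R : Fin 2 → ℂ) (e : ℕ) (f : R2) :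
    f ∈ OC F R (e + 1) ↔ eval R f = 0 ∧ dl F f ∈ OC F R e := by
  rw [mem_OC, mem_OC]
  constructor
  · intro h
    refine ⟨?_, ?_⟩
    · have := h 0 (Nat.succ_pos e)
      rwa [dn_zero] at this
    · intro j hj
      have := h (j + 1) (Nat.succ_lt_succ hj)
      rwa [dn_succ] at this
  · rintro ⟨h0, h1⟩ j hj
    cases j with
    | zero => rwa [dn_zero]
    | succ j =>
      rw [dn_succ]
      exact h1 j (Nat.lt_of_succ_lt_succ hj)

theorem OC_mono (F : R2) (R : Fin 2 → ℂ) {e e' : ℕ} (h : e ≤ e') (f : R2)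
    (hf : f ∈ OC F R e') : f ∈ OC F R e := fun j hj => hf j (lt_of_lt_of_le hj h)

theorem OC_mul (F : R2) (R : Fin 2 → ℂ) (e : ℕ) :
    ∀ a b : R2, a ∈ OC F R e → a * b ∈ OC F R e := by
  induction e with
  | zero => intro a b _ j hj; exact absurd hj (Nat.not_lt_zero j)
  | succ e ih =>
    intro a b ha
    have ha' := (OC_succ F R e a).mp ha
    rw [OC_succ]
    refine ⟨by rw [map_mul, ha'.1, zero_mul], ?_⟩
    have h1 : dl F (a * b) = a * dl F b + dl F a * b := by
      rw [Derivation.leibniz, smul_eq_mul, smul_eq_mul, mul_comm b]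
    rw [h1]
    exact Submodule.add_mem _ (ih a _ (OC_mono F R (Nat.le_succ e) a ha)) (ih _ b ha'.2)

/-- the Wronskian with a fixed polynomial -/
def wrMap (F g : R2) : R2 →ₗ[ℂ] R2 where
  toFun f := dl F f * g - f * dl F g
  map_add' a b := by rw [map_add]; ring
  map_smul' c a := by
    rw [Derivation.map_smul, RingHom.id_apply, smul_mul_assoc, smul_mul_assoc, ← smul_sub]

theorem wrMap_apply (F g f : R2) : wrMap F g f = dl F f * g - f * dl F g := rfl

theorem wr_aux (hC : G_CONST) (F : R2) (hF : Irreducible F) (hFy : ¬ F ∣ pderiv 1 F) :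
    ∀ (v : ℕ) (U : Submodule ℂ R2), FiniteDimensional ℂ U → finrank ℂ U ≤ v →
    (∀ f ∈ U, F ∣ f → f = 0) →
    ∃ W : R2, ¬ F ∣ W ∧ ∀ R : Fin 2 → ℂ, eval R F = 0 → eval R W ≠ 0 →
      ∀ f ∈ U, f ∈ OC F R v → f = 0 := by
  intro v
  have h1 : ¬ F ∣ 1 := fun h => hF.not_isUnit (isUnit_of_dvd_one h)
  induction v with
  | zero =>
    intro U hU hr _
    refine ⟨1, h1, ?_⟩
    intro R _ _ f hf _
    have := hU
    have h0 : finrank ℂ U = 0 := Nat.le_zero.mp hr
    rw [Submodule.finrank_eq_zero] at h0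
    rw [h0] at hf
    exact (Submodule.mem_bot ℂ).mp hf
  | succ v ih =>
    intro U hU hr hdv
    have := hU
    by_cases hb : U = ⊥
    · refine ⟨1, h1, ?_⟩
      intro R _ _ f hf _
      rw [hb] at hf
      exact (Submodule.mem_bot ℂ).mp hf
    obtain ⟨g, hgU, hg⟩ := Submodule.exists_mem_ne_zero_of_ne_bot hb
    have hFg : ¬ F ∣ g := fun h => hg (hdv g hgU h)
    have key : ∀ f ∈ U, F ∣ wrMap F g f → ∃ c : ℂ, f = C c * g := by
      intro f hf hd
      obtain ⟨c, hc⟩ := hC F f g hF hFy hFg hd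
      refine ⟨c, ?_⟩
      have h2 : f - C c * g ∈ U := by
        rw [← smul_eq_C_mul]
        exact U.sub_mem hf (U.smul_mem c hgU)
      exact sub_eq_zero.mp (hdv _ h2 hc)
    have kz : ∀ c : ℂ, wrMap F g (C c * g) = 0 := by
      intro c
      rw [← smul_eq_C_mul, map_smul, wrMap_apply, mul_comm, sub_self, smul_zero]
    set L : U →ₗ[ℂ] R2 := (wrMap F g).domRestrict U with hL
    have hrn := LinearMap.finrank_range_add_finrank_ker L
    have hker : 1 ≤ finrank ℂ (LinearMap.ker L) := by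
      have hmem : (⟨g, hgU⟩ : U) ∈ LinearMap.ker L := by
        rw [LinearMap.mem_ker, hL, LinearMap.domRestrict_apply, wrMap_apply]
        ring
      have hne : LinearMap.ker L ≠ ⊥ := by
        intro hbot
        rw [hbot, Submodule.mem_bot] at hmem
        exact hg (by simpa using congrArg Subtype.val hmem)
      have hpos : finrank ℂ (LinearMap.ker L) ≠ 0 := by
        intro h0
        exact hne (Submodule.finrank_eq_zero.mp h0)
      omega
    have hle : finrank ℂ (LinearMap.range L) ≤ v := by omega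
    have hrd : ∀ w ∈ LinearMap.range L, F ∣ w → w = 0 := by
      rintro w ⟨⟨f, hf⟩, rfl⟩ hd
      have hd' : F ∣ wrMap F g f := hd
      obtain ⟨c, hc⟩ := key f hf hd'
      change wrMap F g f = 0
      rw [hc, kz]
    obtain ⟨W, hW, hWt⟩ := ih (LinearMap.range L) inferInstance hle hrd
    refine ⟨W * g, ?_, ?_⟩
    · intro h
      rcases hF.prime.dvd_or_dvd h with h | h
      · exact hW h
      · exact hFg h
    · intro R hRF hR f hf hO
      rw [map_mul] at hR
      have hR1 : eval R W ≠ 0 := left_ne_zero_of_mul hR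
      have hR2 : eval R g ≠ 0 := right_ne_zero_of_mul hR
      have hO' := (OC_succ F R v f).mp hO
      have hd3 : wrMap F g f ∈ OC F R v := by
        rw [wrMap_apply]
        exact Submodule.sub_mem _ (OC_mul F R v _ _ hO'.2)
          (OC_mul F R v _ _ (OC_mono F R (Nat.le_succ v) f hO))
      have hz : wrMap F g f = 0 := hWt R hRF hR1 (wrMap F g f) ⟨⟨f, hf⟩, rfl⟩ hd3
      obtain ⟨c, hc⟩ := key f hf (by rw [hz]; exact dvd_zero F)
      have hroot := hO'.1
      rw [hc, map_mul, eval_C] at hroot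
      have hc0 : c = 0 := by
        rcases mul_eq_zero.mp hroot with h | h
        · exact h
        · exact absurd h hR2
      rw [hc, hc0, C_0, zero_mul]

theorem gWR (hC : G_CONST) : G_WR := by
  intro F hF hFy U hU hdv
  obtain ⟨W, h1, h2⟩ := wr_aux hC F hF hFy (finrank ℂ U) U hU le_rfl hdv
  exact ⟨W, h1, h2⟩

end Pool.Agent.Helper72.SB
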